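import Pool.Agent.H500.HC.Stm2

/-!
# Project HC of helper500, part G3: the characters in characteristic zero (helper401)
-/

set_option autoImplicit false
set_option linter.unusedSectionVars false

namespace Pool.Agent.H401.HC.Glue

open NumberField IsDedekindDomain Filter Topology Polynomial
open Pool.Agent.H500.HC

section cop

variable {K : Type} [Field K] [NumberField K]

theorem cop_mono {I J I' : Ideal (𝓞 K)} (h : IsCoprime I J) (hI : I ≤ I') : IsCoprime I' J := by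
  rw [Ideal.isCoprime_iff_sup_eq] at h ⊢
  exact top_le_iff.1 (h ▸ sup_le_sup_right hI J)

theorem nat_cop {a b : ℕ} (h : Nat.Coprime a b) : IsCoprime (a : 𝓞 K) (b : 𝓞 K) := by
  have h1 : IsCoprime (a : ℤ) (b : ℤ) := Nat.isCoprime_iff_coprime.2 h
  have h2 := h1.map (Int.castRingHom (𝓞 K))
  simpa using h2

theorem cop_of_norm {𝔞 : Ideal (𝓞 K)} {l : ℕ} (hl : l.Prime) (h : ¬ l ∣ Ideal.absNorm 𝔞) :
    IsCoprime 𝔞 (Ideal.span {(l : 𝓞 K)}) := by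
  refine cop_mono (I := Ideal.span {((Ideal.absNorm 𝔞 : ℕ) : 𝓞 K)}) ?_ ?_
  · rw [Ideal.isCoprime_span_singleton_iff]
    exact nat_cop ((Nat.Prime.coprime_iff_not_dvd hl).2 h).symm
  · rw [Ideal.span_singleton_le_iff_mem]
    exact Ideal.absNorm_mem _

theorem cop_mul {𝔞 : Ideal (𝓞 K)} {N l : ℕ} (h1 : IsCoprime 𝔞 (Ideal.span {(N : 𝓞 K)}))
    (h2 : IsCoprime 𝔞 (Ideal.span {(l : 𝓞 K)})) :
    IsCoprime 𝔞 (Ideal.span {((N * l : ℕ) : 𝓞 K)}) := by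
  rw [Nat.cast_mul, ← Ideal.span_singleton_mul_span_singleton]
  exact h1.mul_right h2

theorem ray_cop {N : ℕ} {x : 𝓞 K} (hx : InRay N x) :
    IsCoprime (Ideal.span {x}) (Ideal.span {(N : 𝓞 K)}) := by
  rw [Ideal.isCoprime_span_singleton_iff]
  obtain ⟨y, hy⟩ := hx.2.1
  exact ⟨1, -y, by linear_combination hy⟩

end cop

section loc

variable {K E : Type} [Field K] [NumberField K] [Field E] [NumberField E]
  {j : E →+* QBar} {N n h : ℕ} {α : HeightOneSpectrum (𝓞 K) → Fin n → ZBar}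
  {t : Fin n → (K →+* E) → ℕ} {lam lam' : HeightOneSpectrum (𝓞 E)}

theorem mem_iff (L : Loc2 j N n α t lam) (x : 𝓞 E) : x ∈ lam.asIdeal ↔ L.ψ (jz j x) = 0 := by
  rw [← L.hker]
  exact RingHom.mem_ker

theorem l_mem (L : Loc2 j N n α t lam) : (L.l : 𝓞 E) ∈ lam.asIdeal := by
  have := norm_mem lam
  rwa [L.hnorm] at this

theorem hlk (L : Loc2 j N n α t lam) : (L.l : L.k) = 0 := by
  have h1 := (mem_iff L _).1 (l_mem L)
  rwa [map_natCast, map_natCast] at h1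

theorem charP (L : Loc2 j N n α t lam) : CharP L.k L.l := by
  obtain ⟨p, hp⟩ := CharP.exists L.k
  have h6 : p ∣ L.l := (CharP.cast_eq_zero_iff L.k p L.l).1 (hlk L)
  rcases (Nat.dvd_prime L.hl).1 h6 with h7 | h7
  · subst h7
    exact absurd (CharP.cast_eq_zero L.k 1) (by rw [Nat.cast_one]; exact one_ne_zero)
  · rwa [h7] at hp

theorem h_ne (L : Loc2 j N n α t lam) (hh : 0 < h) (hl : h < L.l) : (h : L.k) ≠ 0 := by
  have := charP L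
  rw [Ne, CharP.cast_eq_zero_iff L.k L.l]
  exact fun hd => absurd (Nat.le_of_dvd hh hd) (not_le.2 hl)

theorem em_notin (L : Loc2 j N n α t lam) {x : 𝓞 K}
    (hx : IsCoprime (Ideal.span {x}) (Ideal.span {(L.l : 𝓞 K)})) (σ : K →+* E) :
    em σ x ∉ lam.asIdeal := by
  rw [Ideal.isCoprime_span_singleton_iff] at hx
  obtain ⟨a, b, hab⟩ := hx
  intro h1
  apply lam.isPrime.ne_top
  rw [Ideal.eq_top_iff_one]
  have h2 := congrArg (RingOfIntegers.mapRingHom σ) hab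
  rw [map_add, map_mul, map_mul, map_natCast, map_one] at h2
  rw [← h2]
  exact Ideal.add_mem _ (Ideal.mul_mem_left _ _ h1) (Ideal.mul_mem_left _ _ (l_mem L))

/-- the values at the units are one -/
theorem typ_unit (hinf : {lam : HeightOneSpectrum (𝓞 E) | Nonempty (Loc2 j N n α t lam)}.Infinite)
    (i : Fin n) {u : 𝓞 K} (hu : IsUnit u) (huN : InRay N u) : jz j (typ (t i) u) = 1 := by
  rw [← sub_eq_zero]
  refine eq_zero_of_inf j hinf ?_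
  rintro lam ⟨L⟩
  refine ⟨L.k, inferInstance, L.ψ, L.hker, ?_⟩
  have h1 : ∀ σ : K →+* E, em σ u ∉ lam.asIdeal := by
    intro σ h2
    exact lam.isPrime.ne_top (Ideal.eq_top_of_isUnit_mem _ h2 (hu.map (RingOfIntegers.mapRingHom σ)))
  have h2 := L.htyp i u huN h1
  rw [Ideal.span_singleton_eq_top.2 hu, ← Ideal.one_eq_top, map_one] at h2
  rw [map_sub, ← h2, map_one, sub_self]

/-- the values at generators of the same ideal agree -/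
theorem typ_eq (hinf : {lam : HeightOneSpectrum (𝓞 E) | Nonempty (Loc2 j N n α t lam)}.Infinite)
    (i : Fin n) {x y : 𝓞 K} (hx : InRay N x) (hy : InRay N y)
    (hxy : Ideal.span {x} = Ideal.span {y}) : jz j (typ (t i) x) = jz j (typ (t i) y) := by
  rw [Ideal.span_singleton_eq_span_singleton] at hxy
  obtain ⟨u, hu⟩ := hxy
  have hux : (u : 𝓞 K) * x = y := by rw [mul_comm]; exact hu
  have huN : InRay N (u : 𝓞 K) := InRay.of_mul (by rw [hux]; exact hy) hx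
  rw [← hux, typ_mul, map_mul, typ_unit hinf i u.isUnit huN, one_mul]

/-- `z` is the value of the `i`-th character at `𝔞`, according to the data `L` -/
def IsZ (h : ℕ) (L : Loc2 j N n α t lam) (i : Fin n) (𝔞 : Ideal (𝓞 K)) (z : ZBar) : Prop :=
  (∃ x, InRay N x ∧ 𝔞 ^ h = Ideal.span {x} ∧ z ^ h = jz j (typ (t i) x)) ∧ L.ψ z = L.χ i 𝔞

theorem chi_ne (L : Loc2 j N n α t lam) (i : Fin n) {𝔞 : Ideal (𝓞 K)} (h0 : 𝔞 ≠ ⊥)
    (hN : IsCoprime 𝔞 (Ideal.span {(N : 𝓞 K)})) (hl : ¬ L.l ∣ Ideal.absNorm 𝔞) :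
    L.χ i 𝔞 ≠ 0 := ((L.hray i).supp 𝔞 h0).2 (cop_mul hN (cop_of_norm L.hl hl))

theorem Z_ne (L : Loc2 j N n α t lam) (i : Fin n) {𝔞 : Ideal (𝓞 K)} (h0 : 𝔞 ≠ ⊥)
    (hN : IsCoprime 𝔞 (Ideal.span {(N : 𝓞 K)})) (hl : ¬ L.l ∣ Ideal.absNorm 𝔞) {z : ZBar}
    (hz : IsZ h L i 𝔞 z) : z ≠ 0 := by
  rintro rfl
  have h1 := hz.2
  rw [map_zero] at h1
  exact chi_ne L i h0 hN hl h1.symm

theorem Z_unique
    (hinf : {lam : HeightOneSpectrum (𝓞 E) | Nonempty (Loc2 j N n α t lam)}.Infinite)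
    (L : Loc2 j N n α t lam) (hh : 0 < h) (hL : h < L.l) (i : Fin n) {𝔞 : Ideal (𝓞 K)}
    (h0 : 𝔞 ≠ ⊥) (hN : IsCoprime 𝔞 (Ideal.span {(N : 𝓞 K)})) (hl : ¬ L.l ∣ Ideal.absNorm 𝔞)
    {z z' : ZBar} (hz : IsZ h L i 𝔞 z) (hz' : IsZ h L i 𝔞 z') : z = z' := by
  obtain ⟨⟨x, hx1, hx2, hx3⟩, hx4⟩ := hz
  obtain ⟨⟨y, hy1, hy2, hy3⟩, hy4⟩ := hz'
  refine root_unique L.ψ (h_ne L hh hL) ?_ (hx4.trans hy4.symm) ?_
  · rw [hx3, hy3]
    exact typ_eq hinf i hx1 hy1 (hx2.symm.trans hy2)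
  · rw [hy4]
    exact chi_ne L i h0 hN hl

theorem Z_exists (L : Loc2 j N n α t lam) (hh : 0 < h) (i : Fin n) {𝔞 : Ideal (𝓞 K)}
    (hl : ¬ L.l ∣ Ideal.absNorm 𝔞) (hx : ∃ x : 𝓞 K, InRay N x ∧ 𝔞 ^ h = Ideal.span {x}) :
    ∃ z, IsZ h L i 𝔞 z := by
  obtain ⟨x, hx1, hx2⟩ := hx
  have hc : IsCoprime (Ideal.span {x}) (Ideal.span {(L.l : 𝓞 K)}) := by
    rw [← hx2]
    exact (cop_of_norm L.hl hl).pow_left
  have h1 := L.htyp i x hx1 (em_notin L hc)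
  rw [← hx2, map_pow] at h1
  obtain ⟨z, hz1, hz2⟩ := root_lift L.ψ hh h1
  exact ⟨z, ⟨x, hx1, hx2, hz1⟩, hz2⟩

theorem Z_mul (L : Loc2 j N n α t lam) (i : Fin n) {𝔞 𝔟 : Ideal (𝓞 K)} {z w : ZBar}
    (hz : IsZ h L i 𝔞 z) (hw : IsZ h L i 𝔟 w) : IsZ h L i (𝔞 * 𝔟) (z * w) := by
  obtain ⟨⟨x, hx1, hx2, hx3⟩, hx4⟩ := hz
  obtain ⟨⟨y, hy1, hy2, hy3⟩, hy4⟩ := hw
  refine ⟨⟨x * y, hx1.mul hy1, ?_, ?_⟩, ?_⟩
  · rw [mul_pow, hx2, hy2, Ideal.span_singleton_mul_span_singleton]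
  · rw [mul_pow, hx3, hy3, typ_mul, map_mul]
  · rw [map_mul, map_mul, hx4, hy4]

theorem Z_ray (L : Loc2 j N n α t lam) (i : Fin n) {x : 𝓞 K} (hx : InRay N x)
    (hl : ¬ L.l ∣ Ideal.absNorm (Ideal.span {x})) :
    IsZ h L i (Ideal.span {x}) (jz j (typ (t i) x)) := by
  refine ⟨⟨x ^ h, hx.pow h, Ideal.span_singleton_pow x h, ?_⟩, ?_⟩
  · rw [typ_pow, map_pow]
  · exact (L.htyp i x hx (em_notin L (cop_of_norm L.hl hl))).symm

theorem Z_pow (L : Loc2 j N n α t lam) (i : Fin n) {𝔞 : Ideal (𝓞 K)} {z : ZBar}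
    (hz : IsZ h L i 𝔞 z) (m : ℕ) : IsZ h L i (𝔞 ^ m) (z ^ m) := by
  induction m with
  | zero =>
    refine ⟨⟨1, InRay.one N, ?_, ?_⟩, ?_⟩
    · rw [pow_zero, one_pow, Ideal.span_singleton_one, Ideal.one_eq_top]
    · rw [pow_zero, one_pow, typ_one, map_one]
    · rw [pow_zero, pow_zero, map_one, map_one]
  | succ m ih =>
    rw [pow_succ, pow_succ]
    exact Z_mul L i ih hz

/-- two data with the same values at the representatives have the same values -/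
theorem Z_indep
    (hinf : {lam : HeightOneSpectrum (𝓞 E) | Nonempty (Loc2 j N n α t lam)}.Infinite)
    (L : Loc2 j N n α t lam) (L' : Loc2 j N n α t lam') (hh : 0 < h) (hL : h < L.l)
    (hL' : h < L'.l) (i : Fin n) {𝔞 𝔯 : Ideal (𝓞 K)}
    (h0 : 𝔞 ≠ ⊥) (hN : IsCoprime 𝔞 (Ideal.span {(N : 𝓞 K)})) (hl : ¬ L.l ∣ Ideal.absNorm 𝔞)
    (hl' : ¬ L'.l ∣ Ideal.absNorm 𝔞) (hr0 : 𝔯 ≠ ⊥)
    (hrN : IsCoprime 𝔯 (Ideal.span {(N : 𝓞 K)})) (hrl : ¬ L.l ∣ Ideal.absNorm 𝔯)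
    (hrl' : ¬ L'.l ∣ Ideal.absNorm 𝔯)
    (hx : ∃ x : 𝓞 K, InRay N x ∧ 𝔞 * 𝔯 ^ (h - 1) = Ideal.span {x}) {w z z' : ZBar}
    (hw : IsZ h L i 𝔯 w) (hw' : IsZ h L' i 𝔯 w) (hz : IsZ h L i 𝔞 z) (hz' : IsZ h L' i 𝔞 z') :
    z = z' := by
  obtain ⟨x, hx1, hx2⟩ := hx
  have hw0 : w ≠ 0 := Z_ne L i hr0 hrN hrl hw
  have key : ∀ {lam : HeightOneSpectrum (𝓞 E)} (L : Loc2 j N n α t lam), h < L.l →
      ¬ L.l ∣ Ideal.absNorm 𝔞 → ¬ L.l ∣ Ideal.absNorm 𝔯 → IsZ h L i 𝔯 w → ∀ z, IsZ h L i 𝔞 z →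
      z * w ^ (h - 1) = jz j (typ (t i) x) := by
    intro lam L h1 h2 h3 h4 z h5
    have h6 := Z_mul L i h5 (Z_pow L i h4 (h - 1))
    have hp : Prime L.l := L.hl.prime
    have h7 : ¬ L.l ∣ Ideal.absNorm (𝔞 * 𝔯 ^ (h - 1)) := by
      rw [map_mul, map_pow]
      intro h8
      rcases hp.dvd_or_dvd h8 with h9 | h9
      · exact h2 h9
      · exact h3 (hp.dvd_of_dvd_pow h9)
    have h8 : IsZ h L i (𝔞 * 𝔯 ^ (h - 1)) (jz j (typ (t i) x)) := by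
      rw [hx2] at h7 ⊢
      exact Z_ray L i hx1 h7
    refine Z_unique hinf L hh h1 i ?_ ?_ h7 h6 h8
    · rw [hx2, Ne, Ideal.span_singleton_eq_bot]
      exact hx1.1
    · rw [hx2]
      exact ray_cop hx1
  have h1 := key L hL hl hrl hw z hz
  have h2 := key L' hL' hl' hrl' hw' z' hz'
  exact mul_right_cancel₀ (pow_ne_zero _ hw0) (h1.trans h2.symm)

end loc

/-- **PART G3** -/
theorem main : S_Glue := by
  classical
  intro K E _ _ _ _ j N n h R hN hh hR hcl P α hα t hinf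
  -- the places where nothing happens
  set b : ℕ := h.factorial * ∏ 𝔯 ∈ R, Ideal.absNorm 𝔯 with hb
  have hb0 : b ≠ 0 := by
    refine mul_ne_zero (Nat.factorial_ne_zero h) (Finset.prod_ne_zero_iff.2 fun 𝔯 h𝔯 => ?_)
    rw [Ne, Ideal.absNorm_eq_zero_iff]
    exact (hR 𝔯 h𝔯).1
  set S₁ : Set (HeightOneSpectrum (𝓞 E)) :=
    {lam | Nonempty (Loc2 j N n α t lam)} \ {lam | (b : 𝓞 E) ∈ lam.asIdeal} with hS₁
  have hS₁inf : S₁.Infinite :=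
    hinf.diff (Pool.Agent.H500.Kum.fin_mem (Nat.cast_ne_zero.2 hb0))
  have : Infinite S₁ := hS₁inf.to_subtype
  set L : ∀ s : S₁, Loc2 j N n α t s.1 := fun s => Classical.choice s.2.1 with hLdef
  have hnd : ∀ s : S₁, ¬ (L s).l ∣ b := by
    intro s hd
    exact s.2.2 ((natCast_mem_iff_dvd (L s).hl (l_mem (L s))).2 hd)
  have hLh : ∀ s : S₁, h < (L s).l := by
    intro s
    by_contra hcon
    exact hnd s (Dvd.dvd.mul_right (((L s).hl.dvd_factorial).2 (not_lt.1 hcon)) _)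
  have hLR : ∀ (s : S₁), ∀ 𝔯 ∈ R, ¬ (L s).l ∣ Ideal.absNorm 𝔯 := by
    intro s 𝔯 h𝔯 hd
    exact hnd s (Dvd.dvd.mul_left (hd.trans (Finset.dvd_prod_of_mem _ h𝔯)) _)
  -- the values at the representatives
  have hZR : ∀ (s : S₁) (i : Fin n) (r : {𝔯 // 𝔯 ∈ R}), ∃ z, IsZ h (L s) i r.1 z :=
    fun s i r => Z_exists (L s) hh i (hLR s r.1 r.2) (hcl r.1 (hR r.1 r.2).1 (hR r.1 r.2).2).1
  choose Z hZ using hZR
  choose xr hxr1 hxr2 using fun r : {𝔯 // 𝔯 ∈ R} => (hcl r.1 (hR r.1 r.2).1 (hR r.1 r.2).2).1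
  set T : Set (Fin n → {𝔯 // 𝔯 ∈ R} → ZBar) :=
    Set.pi Set.univ fun i => Set.pi Set.univ fun r =>
      {z : ZBar | z ^ h = jz j (typ (t i) (xr r))} with hT
  have hTfin : T.Finite := by
    refine Set.Finite.pi fun i => Set.Finite.pi fun r => ?_
    refine ((X ^ h - Polynomial.C (jz j (typ (t i) (xr r)))).rootSet_finite ZBar).subset ?_
    intro z hz
    rw [Polynomial.mem_rootSet]
    refine ⟨(monic_X_pow_sub_C _ hh.ne').ne_zero, ?_⟩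
    rw [map_sub, map_pow, aeval_X, aeval_C, sub_eq_zero]
    exact hz
  have : Finite T := hTfin.to_subtype
  set f : S₁ → T := fun s => ⟨fun i r => Z s i r, by
    intro i _ r _
    obtain ⟨⟨x, h1, h2, h3⟩, -⟩ := hZ s i r
    show Z s i r ^ h = _
    rw [h3]
    exact typ_eq hinf i h1 (hxr1 r) (h2.symm.trans (hxr2 r))⟩ with hf
  obtain ⟨y, hy⟩ := Finite.exists_infinite_fiber f
  have hZy : ∀ s : f ⁻¹' {y}, ∀ i r, Z s.1 i r = y.1 i r := by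
    intro s i r
    have h1 : f s.1 = y := s.2
    exact congrFun (congrFun (congrArg Subtype.val h1) i) r
  -- infinitely many places avoid a given number
  have havoid : ∀ m : ℕ, m ≠ 0 →
      {lam | ∃ s : f ⁻¹' {y}, s.1.1 = lam ∧ ¬ (L s.1).l ∣ m}.Infinite := by
    intro m hm
    have h1 : (Set.range fun s : f ⁻¹' {y} => s.1.1).Infinite := by
      refine Set.infinite_range_of_injective fun s s' hss => ?_
      exact Subtype.ext (Subtype.ext hss)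
    refine (h1.diff (Pool.Agent.H500.Kum.fin_mem (E := E) (x := (m : 𝓞 E))
      (Nat.cast_ne_zero.2 hm))).mono ?_
    rintro lam ⟨⟨s, rfl⟩, h2⟩
    exact ⟨s, rfl, fun hd => h2 ((natCast_mem_iff_dvd (L s.1).hl (l_mem (L s.1))).2 hd)⟩
  have hnz : ∀ {𝔞 : Ideal (𝓞 K)}, 𝔞 ≠ ⊥ → Ideal.absNorm 𝔞 ≠ 0 := by
    intro 𝔞 h1
    rw [Ne, Ideal.absNorm_eq_zero_iff]
    exact h1
  -- the values
  have hkey : ∀ (i : Fin n) (𝔞 : Ideal (𝓞 K)), 𝔞 ≠ ⊥ ∧ IsCoprime 𝔞 (Ideal.span {(N : 𝓞 K)}) →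
      ∃ z, ∀ s : f ⁻¹' {y}, ¬ (L s.1).l ∣ Ideal.absNorm 𝔞 → IsZ h (L s.1) i 𝔞 z := by
    rintro i 𝔞 ⟨h0, hN'⟩
    obtain ⟨lam, s₀, -, hs₀⟩ := (havoid _ (hnz h0)).nonempty
    obtain ⟨z, hz⟩ := Z_exists (L s₀.1) hh i hs₀ (hcl 𝔞 h0 hN').1
    refine ⟨z, fun s hs => ?_⟩
    obtain ⟨z', hz'⟩ := Z_exists (L s.1) hh i hs (hcl 𝔞 h0 hN').1
    obtain ⟨𝔯, h𝔯, hx⟩ := (hcl 𝔞 h0 hN').2
    have h1 := hZ s₀.1 i ⟨𝔯, h𝔯⟩
    have h2 := hZ s.1 i ⟨𝔯, h𝔯⟩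
    rw [hZy s₀] at h1
    rw [hZy s] at h2
    have h3 := Z_indep hinf (L s₀.1) (L s.1) hh (hLh _) (hLh _) i h0 hN' hs₀ hs (hR 𝔯 h𝔯).1
      (hR 𝔯 h𝔯).2 (hLR _ 𝔯 h𝔯) (hLR _ 𝔯 h𝔯) hx h1 h2 hz hz'
    rw [h3]
    exact hz'
  choose zz hzz using hkey
  set ψ₀ : Fin n → Ideal (𝓞 K) → ZBar := fun i 𝔞 =>
    if hg : 𝔞 ≠ ⊥ ∧ IsCoprime 𝔞 (Ideal.span {(N : 𝓞 K)}) then zz i 𝔞 hg else 0 with hψ₀
  have hψZ : ∀ (i : Fin n) (𝔞 : Ideal (𝓞 K)), 𝔞 ≠ ⊥ → IsCoprime 𝔞 (Ideal.span {(N : 𝓞 K)}) →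
      ∀ s : f ⁻¹' {y}, ¬ (L s.1).l ∣ Ideal.absNorm 𝔞 → IsZ h (L s.1) i 𝔞 (ψ₀ i 𝔞) := by
    intro i 𝔞 h1 h2 s hs
    simp only [hψ₀]
    rw [dif_pos ⟨h1, h2⟩]
    exact hzz i 𝔞 ⟨h1, h2⟩ s hs
  have hψ0 : ∀ (i : Fin n) (𝔞 : Ideal (𝓞 K)),
      ¬ (𝔞 ≠ ⊥ ∧ IsCoprime 𝔞 (Ideal.span {(N : 𝓞 K)})) → ψ₀ i 𝔞 = 0 := by
    intro i 𝔞 h1
    simp only [hψ₀]
    rw [dif_neg h1]
  have hψu : ∀ (i : Fin n) (𝔞 : Ideal (𝓞 K)) (h1 : 𝔞 ≠ ⊥)
      (h2 : IsCoprime 𝔞 (Ideal.span {(N : 𝓞 K)})) (s : f ⁻¹' {y})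
      (hs : ¬ (L s.1).l ∣ Ideal.absNorm 𝔞) (z : ZBar), IsZ h (L s.1) i 𝔞 z → ψ₀ i 𝔞 = z :=
    fun i 𝔞 h1 h2 s hs z hz => Z_unique hinf (L s.1) hh (hLh _) i h1 h2 hs
      (hψZ i 𝔞 h1 h2 s hs) hz
  have hray : ∀ (i : Fin n) (x : 𝓞 K), InRay N x → ψ₀ i (Ideal.span {x}) = jz j (typ (t i) x) := by
    intro i x hx
    have h0 : Ideal.span {x} ≠ ⊥ := by
      rw [Ne, Ideal.span_singleton_eq_bot]
      exact hx.1
    obtain ⟨lam, s, -, hs⟩ := (havoid _ (hnz h0)).nonempty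
    exact hψu i _ h0 (ray_cop hx) s hs _ (Z_ray (L s.1) i hx hs)
  set ψ : Fin n → (Ideal (𝓞 K) →*₀ ZBar) := fun i =>
    { toFun := ψ₀ i
      map_zero' := hψ0 i _ fun h1 => h1.1 rfl
      map_one' := by
        have h1 := hray i 1 (InRay.one N)
        rw [Ideal.span_singleton_one, ← Ideal.one_eq_top, typ_one, map_one] at h1
        exact h1
      map_mul' := by
        intro 𝔞 𝔟
        by_cases hg : (𝔞 ≠ ⊥ ∧ IsCoprime 𝔞 (Ideal.span {(N : 𝓞 K)})) ∧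
            (𝔟 ≠ ⊥ ∧ IsCoprime 𝔟 (Ideal.span {(N : 𝓞 K)}))
        · obtain ⟨⟨ha1, ha2⟩, hb1, hb2⟩ := hg
          have h0 : 𝔞 * 𝔟 ≠ ⊥ := mul_ne_zero ha1 hb1
          obtain ⟨lam, s, -, hs⟩ := (havoid _ (hnz h0)).nonempty
          have hs' := hs
          rw [map_mul] at hs
          exact hψu i _ h0 (ha2.mul_left hb2) s hs' _ (Z_mul (L s.1) i
            (hψZ i 𝔞 ha1 ha2 s fun hd => hs (Dvd.dvd.mul_right hd _))
            (hψZ i 𝔟 hb1 hb2 s fun hd => hs (Dvd.dvd.mul_left hd _)))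
        · rw [hψ0 i (𝔞 * 𝔟) ?_]
          · rcases not_and_or.1 hg with h1 | h1
            · rw [hψ0 i 𝔞 h1, zero_mul]
            · rw [hψ0 i 𝔟 h1, mul_zero]
          · rintro ⟨h1, h2⟩
            exact hg ⟨⟨left_ne_zero_of_mul h1, h2.of_mul_left_left⟩,
              ⟨right_ne_zero_of_mul h1, h2.of_mul_left_right⟩⟩ } with hψ
  have hψe : ∀ i 𝔞, ψ i 𝔞 = ψ₀ i 𝔞 := fun i 𝔞 => rfl
  refine ⟨ψ, fun i 𝔞 h0 => ?_, fun i x hx => hray i x hx, fun v hv => ?_⟩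
  · rw [hψe]
    constructor
    · intro h1
      by_contra h2
      exact h1 (hψ0 i 𝔞 fun h3 => h2 h3.2)
    · intro h1
      obtain ⟨lam, s, -, hs⟩ := (havoid _ (hnz h0)).nonempty
      exact Z_ne (L s.1) i h0 h1 hs (hψZ i 𝔞 h0 h1 s hs)
  · have hvN : IsCoprime v.asIdeal (Ideal.span {(N : 𝓞 K)}) := by
      rw [Ideal.isCoprime_iff_sup_eq]
      by_contra h1
      obtain ⟨m, hm, hle⟩ := Ideal.exists_le_maximal _ h1
      have h2 : v.asIdeal = m := v.isMaximal.eq_of_le hm.ne_top (le_sup_left.trans hle)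
      apply hv
      rw [h2]
      exact hle (Ideal.mem_sup_right (Ideal.mem_span_singleton_self _))
    rw [← sub_eq_zero]
    refine Polynomial.ext fun m => ?_
    rw [coeff_zero]
    refine eq_zero_of_inf j (havoid _ (hnz v.ne_bot)) ?_
    rintro lam ⟨s, rfl, hs⟩
    refine ⟨(L s.1).k, inferInstance, (L s.1).ψ, (L s.1).hker, ?_⟩
    rw [← coeff_map]
    have hvl : ((L s.1).l : 𝓞 K) ∉ v.asIdeal := fun h1 =>
      hs ((natCast_mem_iff_dvd (L s.1).hl h1).1 (norm_mem v))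
    have h3 : ((P v).map (jz j) - ∏ i, (X - Polynomial.C (ψ i v.asIdeal))).map (L s.1).ψ = 0 := by
      rw [Polynomial.map_sub, hα v hv, Polynomial.map_prod, Polynomial.map_prod, sub_eq_zero]
      simp only [Polynomial.map_sub, Polynomial.map_X, Polynomial.map_C]
      obtain ⟨π, hπ⟩ := (L s.1).hroots v hv hvl
      rw [← Equiv.prod_comp π]
      refine Finset.prod_congr rfl fun i _ => ?_
      rw [hπ i, hψe, (hψZ i v.asIdeal v.ne_bot hvN s hs).2]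
    rw [h3, coeff_zero]

end Pool.Agent.H401.HC.Glue
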